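import Mathlib
import Pool.Agent.N818.SN.Stm4
import Pool.Agent.N592.SN.NPSP
import Pool.Agent.N216.SN.T

/-!
# Project SN (helper818), second part, LOCD: the local conditions for `WD` (helper572)

After `Pool.Agent.N592.SN.NPSP` (helper592, helper482, helper402) and `Pool.Agent.N216.SN.T` (helper216).
-/

set_option autoImplicit false

namespace Pool.Agent.N572.SN

open PadicInt
open Pool.Agent.Z702 (LocI)
open Pool.Agent.N818.SN (LK S_LOCD)
open Pool.Agent.N482.SL (norm_unit norm_sqf par sq_near_one norm_lt_of_le norm_int_le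
  toZMod_eq_zero)
open Pool.Agent.N592.SN (red sq_of_mul two_three)
open Pool.Agent.N407.SL (φ norm_φ unit_add norm_odd sq_ne unit_sq root_int exists_u)
open Pool.Agent.N216.SN (mod8_of_sq dv_of)

section

variable {p : ℕ} [hp : Fact p.Prime]

/-- the local analysis, any coefficients -/
theorem core (h2 : p ≠ 2) {α c n d : ℤ} (hc : ¬ (p : ℤ) ∣ c) (hn : Squarefree n)
    (hd : Squarefree d) {X Y r : ℚ_[p]} (hX : X ≠ 0)
    (h : Y ^ 2 = X ^ 3 - 2 * (α * n) * X ^ 2 + (c : ℚ_[p]) * n ^ 2 * X)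
    (hr : X = d * r ^ 2) :
    IsSquare (d : ℚ_[p]) ∨ IsSquare ((((c * d : ℤ) : ℤ) : ℚ_[p])) ∨
      (¬ (p : ℤ) ∣ n ∧ ¬ (p : ℤ) ∣ d) ∨
      ((p : ℤ) ∣ n ∧ (p : ℤ) ∣ d ∧ ∃ x : ZMod p, x ^ 2 - 2 * α * x + c = 0 ∧
        ∀ n' d' : ℤ, n = p * n' → d = p * d' → IsSquare (((n' * d' : ℤ) : ZMod p) * x)) := by
  have hn0 : (n : ℚ_[p]) ≠ 0 := by exact_mod_cast hn.ne_zero
  have hd0 : (d : ℚ_[p]) ≠ 0 := by exact_mod_cast hd.ne_zero
  have hr0 : r ≠ 0 := by
    rintro rfl
    apply hX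
    rw [hr]
    ring
  have hp0 : (0 : ℝ) < p := by exact_mod_cast hp.out.pos
  obtain ⟨x, hx⟩ : ∃ x : ℚ_[p], X = n * x := ⟨X / n, by field_simp⟩
  have hx0 : x ≠ 0 := by
    rintro rfl
    exact hX (by rw [hx, mul_zero])
  have hY : Y ^ 2 = n ^ 3 * x * (x ^ 2 - 2 * α * x + c) := by
    rw [h, hx]
    ring
  have hcn : ‖(c : ℚ_[p])‖ = 1 := norm_unit hc
  have hc0 : (c : ℚ_[p]) ≠ 0 := by
    intro h0
    rw [h0, norm_zero] at hcn
    norm_num at hcn
  have hα : ‖(2 * α : ℚ_[p])‖ ≤ 1 := by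
    have := norm_int_le (p := p) (2 * α)
    push_cast at this
    exact this
  rcases lt_trichotomy ‖x‖ 1 with hlt | heq | hgt
  · -- small
    right
    left
    obtain ⟨s, hs0, hs⟩ := sq_near_one h2 (z := (x ^ 2 - 2 * α * x + c) / c) (by
      have e1 : (x ^ 2 - 2 * α * x + c) / c - 1 = (x ^ 2 + (-(2 * α * x))) / c := by
        field_simp
        ring
      rw [e1, norm_div, hcn, div_one]
      apply norm_lt_of_le
      · rw [norm_pow]
        have := norm_nonneg x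
        nlinarith
      · rw [norm_neg, norm_mul]
        have := norm_nonneg x
        nlinarith)
    have e2 : x ^ 2 - 2 * α * x + c = c * s ^ 2 := by
      rw [div_eq_iff hc0] at hs
      rw [hs]
      ring
    refine ⟨Y / (n * s * r), ?_⟩
    have e3 : Y ^ 2 = (n * s * r) ^ 2 * (c * d) := by
      rw [hY, e2]
      have e4 : (n : ℚ_[p]) * x = d * r ^ 2 := by rw [← hx, hr]
      calc (n : ℚ_[p]) ^ 3 * x * (c * s ^ 2) = c * n ^ 2 * s ^ 2 * (n * x) := by ring
        _ = _ := by rw [e4]; ring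
    push_cast
    field_simp
    rw [e3]
    ring
  · -- unit
    right
    right
    have hXn : ‖(d : ℚ_[p])‖ * ‖r‖ ^ 2 = ‖(n : ℚ_[p])‖ := by
      rw [← norm_pow, ← norm_mul, ← hr, hx, norm_mul, heq, mul_one]
    by_cases hpn : (p : ℤ) ∣ n
    · right
      have hnn := norm_sqf hn hpn
      have hq1 : ‖x ^ 2 - 2 * α * x + c‖ < 1 := by
        refine lt_of_le_of_ne ?_ ?_
        · rw [sub_eq_add_neg]
          refine (Padic.nonarchimedean _ _).trans (max_le ((Padic.nonarchimedean _ _).trans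
            (max_le ?_ ?_)) hcn.le)
          · rw [norm_pow, heq, one_pow]
          · rw [norm_neg, norm_mul, heq, mul_one]
            exact hα
        · intro h3
          have h4 : ‖Y‖ ^ 2 = (p : ℝ) ^ (-3 : ℤ) := by
            rw [← norm_pow, hY, norm_mul, norm_mul, norm_pow, hnn, heq, h3, mul_one, mul_one,
              ← zpow_natCast, ← zpow_mul]
            norm_num
          have h5 := par h4
          exact absurd h5 (by decide)
      have hpd : (p : ℤ) ∣ d := by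
        by_contra hc
        rw [norm_unit hc, one_mul, hnn] at hXn
        exact absurd (par hXn) (by decide)
      refine ⟨hpn, hpd, ?_⟩
      have hdn := norm_sqf hd hpd
      have hrn : ‖r‖ = 1 := by
        rw [hdn, hnn] at hXn
        have h3 : ‖r‖ ^ 2 = 1 := by
          have h4 : (p : ℝ) ^ (-1 : ℤ) ≠ 0 := (zpow_pos hp0 _).ne'
          exact mul_left_cancel₀ h4 (by rw [hXn, mul_one])
        exact (pow_eq_one_iff_of_nonneg (norm_nonneg r) two_ne_zero).1 h3
      obtain ⟨x', hx'⟩ : ∃ w : ℤ_[p], (w : ℚ_[p]) = x := ⟨⟨x, heq.le⟩, rfl⟩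
      obtain ⟨r', hr'⟩ : ∃ w : ℤ_[p], (w : ℚ_[p]) = r := ⟨⟨r, hrn.le⟩, rfl⟩
      have hq : (toZMod x') ^ 2 - 2 * (α : ZMod p) * toZMod x' + (c : ZMod p) = 0 := by
        have h3 : toZMod (x' ^ 2 - ((2 * α : ℤ) : ℤ_[p]) * x' + ((c : ℤ) : ℤ_[p])) = 0 := by
          rw [toZMod_eq_zero, PadicInt.norm_def]
          push_cast
          rw [hx']
          exact hq1
        rw [map_add, map_sub, map_mul, map_pow, map_intCast, map_intCast] at h3
        push_cast at h3
        exact h3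
      refine ⟨toZMod x', hq, ?_⟩
      intro n' d' hn' hd'
      have h3 : ((n' : ℤ) : ZMod p) * toZMod x' = (d' : ZMod p) * toZMod r' ^ 2 := by
        have h4 : (n' : ℤ_[p]) * x' = d' * r' ^ 2 := by
          have h5 : (n : ℚ_[p]) * x = d * r ^ 2 := by rw [← hx, hr]
          rw [hn', hd', ← hx', ← hr'] at h5
          push_cast at h5
          have hp0' : (p : ℚ_[p]) ≠ 0 := by exact_mod_cast hp.out.ne_zero
          have h6 : (n' : ℚ_[p]) * x' = d' * (r' : ℚ_[p]) ^ 2 := by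
            apply mul_left_cancel₀ hp0'
            linear_combination h5
          apply PadicInt.ext
          push_cast
          exact h6
        have h5 := congrArg toZMod h4
        simpa using h5
      refine ⟨(d' : ZMod p) * toZMod r', ?_⟩
      push_cast
      linear_combination (d' : ZMod p) * h3
    · left
      refine ⟨hpn, ?_⟩
      intro hpd
      rw [norm_sqf hd hpd, norm_unit hpn] at hXn
      have h3 : ‖r‖ ^ 2 = (p : ℝ) ^ (1 : ℤ) := by
        rw [zpow_neg_one] at hXn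
        rw [zpow_one]
        field_simp at hXn
        exact hXn
      exact absurd (par h3) (by decide)
  · -- large
    left
    obtain ⟨s, hs0, hs⟩ := sq_near_one h2 (z := (x ^ 2 - 2 * α * x + c) / x ^ 2) (by
      have e1 : (x ^ 2 - 2 * α * x + c) / x ^ 2 - 1 = -(2 * α / x) + c / x ^ 2 := by
        field_simp
        ring
      rw [e1]
      have hx1 : 0 < ‖x‖ := by linarith
      apply norm_lt_of_le
      · rw [norm_neg, norm_div, div_lt_one hx1]
        linarith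
      · rw [norm_div, norm_pow, hcn, div_lt_one (by positivity)]
        nlinarith)
    have e2 : x ^ 2 - 2 * α * x + c = x ^ 2 * s ^ 2 := by
      rw [div_eq_iff (pow_ne_zero 2 hx0)] at hs
      rw [hs]
      ring
    refine ⟨Y / (X * s * r), ?_⟩
    have e3 : Y ^ 2 = (X * s * r) ^ 2 * d := by
      rw [hY, e2]
      calc (n : ℚ_[p]) ^ 3 * x * (x ^ 2 * s ^ 2) = (n * x) ^ 2 * s ^ 2 * (n * x) := by ring
        _ = X ^ 2 * s ^ 2 * X := by rw [← hx]
        _ = X ^ 2 * s ^ 2 * (d * r ^ 2) := by rw [← hr]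
        _ = _ := by ring
    field_simp
    rw [e3]
    ring

theorem not_dvd_64 (h2 : p ≠ 2) : ¬ (p : ℤ) ∣ 64 := by
  intro h
  have h1 : (p : ℤ) ∣ 2 ^ 6 := by norm_num; exact h
  have h3 : p ∣ 2 ^ 6 := by exact_mod_cast h1
  exact h2 ((Nat.prime_dvd_prime_iff_eq hp.out Nat.prime_two).1 (hp.out.dvd_of_dvd_pow h3))

/-- the key alternative for `WD` at `p ≠ 2` -/
theorem key (h2 : p ≠ 2) {n d : ℤ} (hn : Squarefree n) (hd : Squarefree d)
    (h : LK ℚ_[p] (10 * n) (9 * n ^ 2) d) :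
    (¬ (p : ℤ) ∣ d ∧ IsSquare ((d : ℤ) : ZMod p)) ∨ (¬ (p : ℤ) ∣ n ∧ ¬ (p : ℤ) ∣ d) ∨
      ((p : ℤ) ∣ n ∧ (p : ℤ) ∣ d ∧ ∃ x : ZMod p, (x = 4 ∨ x = 16) ∧
        ∀ n' d' : ℤ, n = p * n' → d = p * d' → IsSquare (((n' * d' : ℤ) : ZMod p) * x)) := by
  have hn0 : (n : ℚ_[p]) ≠ 0 := by exact_mod_cast hn.ne_zero
  have k1 : IsSquare (d : ℚ_[p]) → ¬ (p : ℤ) ∣ d ∧ IsSquare ((d : ℤ) : ZMod p) := by
    intro h
    have h3 := red (p := p) (d := d) (c := 1) hd (by
      intro h4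
      have h5 : p ∣ 1 := by exact_mod_cast h4
      exact hp.out.one_lt.ne' (Nat.dvd_one.1 h5)) (by simpa using h)
    simpa using h3
  have h80 : (8 : ℚ_[p]) ≠ 0 := by norm_num
  have k2 : IsSquare (((64 * d : ℤ) : ℤ) : ℚ_[p]) → IsSquare (d : ℚ_[p]) := by
    rintro ⟨u, hu⟩
    refine ⟨u / 8, ?_⟩
    push_cast at hu
    field_simp
    linear_combination hu
  rcases h with h | ⟨u, hu⟩ | ⟨X, Y, r, hX, hY, hr⟩
  · exact Or.inl (k1 h)
  · refine Or.inl (k1 ⟨u / (8 * n), ?_⟩)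
    push_cast at hu ⊢
    field_simp
    linear_combination hu
  · rcases core h2 (α := 10) (c := 64) (not_dvd_64 h2) hn hd hX
      (by rw [hY]; push_cast; ring) hr with h | h | h | h
    · exact Or.inl (k1 h)
    · exact Or.inl (k1 (k2 h))
    · exact Or.inr (Or.inl h)
    · obtain ⟨a1, a2, x, a3, a4⟩ := h
      refine Or.inr (Or.inr ⟨a1, a2, x, ?_, a4⟩)
      have e : (x - 4) * (x - 16) = 0 := by
        push_cast at a3
        linear_combination a3
      rcases mul_eq_zero.1 e with h | h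
      · exact Or.inl (sub_eq_zero.1 h)
      · exact Or.inr (sub_eq_zero.1 h)

end

/-- the condition at two -/
theorem two {n d : ℤ} (hn : n % 8 = 3) (hd : Squarefree d)
    (h : LK ℚ_[2] (10 * n) (9 * n ^ 2) d) : ¬ (2 : ℤ) ∣ d := by
  have hn0 : n ≠ 0 := by omega
  have hn2 : ¬ (2 : ℤ) ∣ n := by omega
  rintro ⟨d', rfl⟩
  have hd' : ¬ (2 : ℤ) ∣ d' := by
    rintro ⟨c, rfl⟩
    have := hd 2 ⟨c, by ring⟩
    rw [Int.isUnit_iff] at this
    omega
  have hu' := norm_odd hd'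
  have hn3 : ¬ (2 : ℤ) ∣ n ^ 2 := fun h => hn2 (Int.prime_two.dvd_of_dvd_pow h)
  have hnz : ‖((n ^ 2 : ℤ) : ℤ_[2])‖ = 1 := norm_odd hn3
  rcases h with ⟨s, hs⟩ | ⟨s, hs⟩ | ⟨X, Y, r, hX, hY, hXr⟩
  · refine sq_ne (W := s) hu' 0 ?_
    push_cast at hs
    simp only [map_intCast]
    linear_combination -hs
  · have h7 : ‖((d' * n ^ 2 : ℤ) : ℤ_[2])‖ = 1 := norm_odd (by
      intro h
      rcases (Int.prime_two.dvd_mul.1 h) with h | h
      · exact hd' h
      · exact hn3 h)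
    refine sq_ne (W := s) h7 3 ?_
    push_cast at hs
    simp only [map_intCast]
    push_cast
    linear_combination -hs
  · have hr : r ≠ 0 := by
      rintro rfl
      apply hX
      rw [hXr]
      ring
    obtain ⟨k, u, hu, hru⟩ := exists_u hr
    have hW : (Y / r) ^ 2 = 8 * (d' : ℚ_[2]) * ((d' : ℚ_[2]) ^ 2 * r ^ 4 -
        10 * n * d' * r ^ 2 + 16 * n ^ 2) := by
      rw [div_pow, div_eq_iff (pow_ne_zero 2 hr), hY, hXr]
      push_cast
      ring
    set W := Y / r with hWdef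
    rcases le_or_gt k 0 with hk | hk
    · obtain ⟨m, hm⟩ : ∃ m : ℕ, k = -(m : ℤ) := ⟨k.natAbs, by omega⟩
      have hru' : r * 2 ^ m = φ u := by
        rw [hru, hm, zpow_neg, zpow_natCast]
        field_simp
      have hu4 : ‖((d' : ℤ) : ℤ_[2]) ^ 2 * u ^ 4‖ = 1 := by
        rw [norm_mul, norm_pow, norm_pow, hu, hu']
        norm_num
      have hE : ‖((d' : ℤ) : ℤ_[2]) * (((d' : ℤ) : ℤ_[2]) ^ 2 * u ^ 4 + 2 *
          (-(5 * (n : ℤ_[2]) * (d' : ℤ_[2]) * u ^ 2 * 4 ^ m) + 8 * (n : ℤ_[2]) ^ 2 * 16 ^ m))‖ =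
          1 := by
        rw [norm_mul, hu', one_mul]
        exact unit_add _ hu4
      refine sq_ne (W := W * 4 ^ m) hE 1 ?_
      simp only [map_mul, map_add, map_neg, map_pow, map_intCast, map_ofNat]
      rw [mul_pow, hW, ← hru']
      have e5 : (4 : ℚ_[2]) ^ m = 2 ^ m * 2 ^ m := by
        rw [← mul_pow]; norm_num
      have e6 : (16 : ℚ_[2]) ^ m = 2 ^ m * 2 ^ m * 2 ^ m * 2 ^ m := by
        rw [← mul_pow, ← mul_pow, ← mul_pow]; norm_num
      rw [e5, e6]
      ring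
    rcases eq_or_ne k 1 with hk1 | hk1
    · have hru' : r = 2 * φ u := by rw [hru, hk1, zpow_one]
      obtain ⟨y, hy⟩ := mod8_of_sq (W := W / 8) (e := (d' : ℤ_[2]) * (2 * (d' : ℤ_[2]) ^ 2 *
        u ^ 4 - 5 * (n : ℤ_[2]) * (d' : ℤ_[2]) * u ^ 2 + 2 * (n : ℤ_[2]) ^ 2)) (by
          rw [div_pow, hW, hru']
          simp only [map_mul, map_add, map_sub, map_pow, map_intCast, map_ofNat]
          ring)
      simp only [map_mul, map_add, map_sub, map_pow, map_intCast, map_ofNat] at hy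
      have hus := unit_sq hu
      have hdd : ((d' : ℤ) : ZMod 8) ^ 2 = 1 := by
        have := unit_sq hu'
        rw [map_intCast] at this
        exact this
      have hν : ((n : ℤ) : ZMod 8) = 3 := dv_of (N := 8) hn
      have key : ∀ y d v : ZMod 8, v ^ 2 = 1 → d ^ 2 = 1 →
          y ^ 2 ≠ d * (2 * d ^ 2 * v ^ 4 - 5 * 3 * d * v ^ 2 + 2 * 3 ^ 2) := by
        decide +kernel
      have hy' : y ^ 2 = ((d' : ℤ) : ZMod 8) * (2 * ((d' : ℤ) : ZMod 8) ^ 2 *
          (PadicInt.toZModPow 3 u : ZMod (2 ^ 3)) ^ 4 - 5 * ((n : ℤ) : ZMod 8) *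
          ((d' : ℤ) : ZMod 8) * (PadicInt.toZModPow 3 u : ZMod (2 ^ 3)) ^ 2 +
          2 * ((n : ℤ) : ZMod 8) ^ 2) := hy
      rw [hν] at hy'
      exact key y _ _ hus hdd hy'
    · obtain ⟨m, hm⟩ : ∃ m : ℕ, k = (m : ℤ) + 2 := ⟨(k - 2).toNat, by omega⟩
      have hru' : r = 4 * φ ((2 : ℤ_[2]) ^ m * u) := by
        rw [hru, hm, zpow_add₀ (two_ne_zero)]
        simp only [map_mul, map_add, map_pow, map_intCast, map_ofNat]
        norm_num
        ring
      set s : ℤ_[2] := (2 : ℤ_[2]) ^ m * u with hs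
      have hE : ‖((d' : ℤ) : ℤ_[2]) * (((n ^ 2 : ℤ) : ℤ_[2]) + 2 *
          (8 * (d' : ℤ_[2]) ^ 2 * s ^ 4 - 5 * (n : ℤ_[2]) * (d' : ℤ_[2]) * s ^ 2))‖ = 1 := by
        rw [norm_mul, hu', one_mul]
        exact unit_add _ hnz
      refine sq_ne (W := W) hE 3 ?_
      rw [hW, hru']
      simp only [map_mul, map_add, map_sub, map_pow, map_intCast, map_ofNat]
      push_cast
      ring

/-- **SN-LOCD.** -/
theorem t_LOCD : S_LOCD := by
  intro n d hn24 hnpos hn hd
  have hd0 : d ≠ 0 := hd.ne_zero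
  refine ⟨two (by omega) hd, ?_, ?_, ?_⟩
  · intro h
    have h3n : ¬ ((3 : ℕ) : ℤ) ∣ n := by push_cast; omega
    rcases key (p := 3) (by norm_num) hn hd h with k | k | k
    · have := k.1
      push_cast at this
      exact this
    · have := k.2
      push_cast at this
      exact this
    · exact absurd k.1 h3n
  · intro h
    have hnR : (0 : ℝ) < n := by exact_mod_cast hnpos
    have hdR : (d : ℝ) ≠ 0 := by exact_mod_cast hd0
    by_contra hcon
    have hdneg : (d : ℝ) < 0 := by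
      have : (d : ℝ) ≤ 0 := by exact_mod_cast not_lt.1 hcon
      exact lt_of_le_of_ne this hdR
    rcases h with ⟨s, hs⟩ | ⟨s, hs⟩ | ⟨X, Y, r, hX, hY, hr⟩
    · nlinarith [mul_self_nonneg s]
    · push_cast at hs
      have h1 : (d : ℝ) * ((10 * n) ^ 2 - 4 * (9 * n ^ 2)) = 64 * (d * n ^ 2) := by ring
      rw [h1] at hs
      have h2 : (d : ℝ) * n ^ 2 < 0 := mul_neg_of_neg_of_pos hdneg (by positivity)
      nlinarith [mul_self_nonneg s]
    · have hXn : X < 0 := by
        refine lt_of_le_of_ne ?_ hX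
        rw [hr]
        nlinarith [sq_nonneg r]
      push_cast at hY
      have h1 : X ^ 3 - 2 * (10 * n) * X ^ 2 + ((10 * n) ^ 2 - 4 * (9 * n ^ 2)) * X =
          X * ((X - 4 * n) * (X - 16 * n)) := by ring
      rw [h1] at hY
      have h2 : 0 < (X - 4 * n) * (X - 16 * n) :=
        mul_pos_of_neg_of_neg (by linarith) (by linarith)
      have h3 := mul_neg_of_neg_of_pos hXn h2
      nlinarith [sq_nonneg Y]
  · intro p hp h2 h3 h
    obtain ⟨h2', h3'⟩ := two_three (p := p) h2 h3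
    rcases key h2 hn hd h with k | k | k
    · refine ⟨fun _ => k.1, fun _ => ⟨fun _ => k.2, fun n' d' _ hd' => ?_⟩⟩
      exact absurd ⟨d', hd'⟩ k.1
    · exact ⟨fun _ => k.2, fun h => absurd h k.1⟩
    · obtain ⟨k1, k2, x, hx, k3⟩ := k
      refine ⟨fun h => absurd k1 h, fun _ => ⟨fun h => absurd k2 h, fun n' d' hn' hd' => ?_⟩⟩
      have h6 := k3 n' d' hn' hd'
      have h7 : IsSquare x ∧ x ≠ 0 := by
        rcases hx with rfl | rfl
        · refine ⟨⟨2, by norm_num⟩, ?_⟩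
          have e : (4 : ZMod p) = 2 ^ 2 := by norm_num
          rw [e]
          exact pow_ne_zero 2 h2'
        · refine ⟨⟨4, by norm_num⟩, ?_⟩
          have e : (16 : ZMod p) = 2 ^ 4 := by norm_num
          rw [e]
          exact pow_ne_zero 4 h2'
      refine sq_of_mul h7.1 h7.2 ?_
      rw [mul_comm]
      exact h6

end Pool.Agent.N572.SN
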